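import Mathlib

set_option autoImplicit false

open FirstOrder FirstOrder.Language

namespace Helper8Orth

universe u v w

/-- The relation symbols: two unary ones, a binary one and a ternary one. -/
inductive Rel : ℕ → Type
  | A0 : Rel 1
  | A1 : Rel 1
  | E : Rel 2
  | R : Rel 3

/-- The language. -/
def Lg : FirstOrder.Language.{0, 0} := ⟨fun _ => Empty, Rel⟩

section Preds

variable {U : Type w} [Lg.Structure U]

/-- the first unary predicate -/
def a0 (x : U) : Prop := Structure.RelMap (L := Lg) (M := U) Rel.A0 ![x]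

/-- the second unary predicate -/
def a1 (x : U) : Prop := Structure.RelMap (L := Lg) (M := U) Rel.A1 ![x]

/-- the binary relation -/
def e (x y : U) : Prop := Structure.RelMap (L := Lg) (M := U) Rel.E ![x, y]

/-- the ternary relation -/
def r (x y z : U) : Prop := Structure.RelMap (L := Lg) (M := U) Rel.R ![x, y, z]

/-- the first sort -/
def vv (x : U) : Prop := ¬ a0 x ∧ ¬ a1 x

theorem relMap_one (R : Lg.Relations 1) (f : Fin 1 → U) :
    Structure.RelMap R f ↔ Structure.RelMap R ![f 0] := by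
  have : f = ![f 0] := by
    funext i
    fin_cases i
    rfl
  rw [← this]

theorem relMap_two (R : Lg.Relations 2) (f : Fin 2 → U) :
    Structure.RelMap R f ↔ Structure.RelMap R ![f 0, f 1] := by
  have : f = ![f 0, f 1] := by
    funext i
    fin_cases i <;> rfl
  rw [← this]

theorem relMap_three (R : Lg.Relations 3) (f : Fin 3 → U) :
    Structure.RelMap R f ↔ Structure.RelMap R ![f 0, f 1, f 2] := by
  have : f = ![f 0, f 1, f 2] := by
    funext i
    fin_cases i <;> rfl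
  rw [← this]

end Preds

/-- Two tuples have the same quantifier free type. -/
structure QEq {ι : Type*} {U : Type u} {U' : Type v} [Lg.Structure U] [Lg.Structure U']
    (v : ι → U) (v' : ι → U') : Prop where
  eq : ∀ i j, v i = v j ↔ v' i = v' j
  h0 : ∀ i, a0 (v i) ↔ a0 (v' i)
  h1 : ∀ i, a1 (v i) ↔ a1 (v' i)
  he : ∀ i j, e (v i) (v j) ↔ e (v' i) (v' j)
  hr : ∀ i j k, r (v i) (v j) (v k) ↔ r (v' i) (v' j) (v' k)

namespace QEq

variable {ι : Type*} {κ : Type*} {U : Type u} {U' : Type v} {U'' : Type w} [Lg.Structure U]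
  [Lg.Structure U'] [Lg.Structure U'']

theorem refl (v : ι → U) : QEq v v :=
  ⟨fun _ _ => Iff.rfl, fun _ => Iff.rfl, fun _ => Iff.rfl, fun _ _ => Iff.rfl,
    fun _ _ _ => Iff.rfl⟩

theorem symm {v : ι → U} {v' : ι → U'} (h : QEq v v') : QEq v' v :=
  ⟨fun i j => (h.eq i j).symm, fun i => (h.h0 i).symm, fun i => (h.h1 i).symm,
    fun i j => (h.he i j).symm, fun i j k => (h.hr i j k).symm⟩

theorem trans {v : ι → U} {v' : ι → U'} {v'' : ι → U''} (h : QEq v v') (h' : QEq v' v'') :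
    QEq v v'' :=
  ⟨fun i j => (h.eq i j).trans (h'.eq i j), fun i => (h.h0 i).trans (h'.h0 i),
    fun i => (h.h1 i).trans (h'.h1 i), fun i j => (h.he i j).trans (h'.he i j),
    fun i j k => (h.hr i j k).trans (h'.hr i j k)⟩

theorem comp {v : ι → U} {v' : ι → U'} (h : QEq v v') (g : κ → ι) : QEq (v ∘ g) (v' ∘ g) :=
  ⟨fun i j => h.eq (g i) (g j), fun i => h.h0 (g i), fun i => h.h1 (g i),
    fun i j => h.he (g i) (g j), fun i j k => h.hr (g i) (g j) (g k)⟩

end QEq

/-- The universal axioms. -/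
structure Univ (U : Type w) [Lg.Structure U] : Prop where
  disj : ∀ x : U, ¬ (a0 x ∧ a1 x)
  e_left : ∀ x y : U, e x y → vv x
  e_right : ∀ x y : U, e x y → ¬ vv y
  r_vv : ∀ x y z : U, r x y z → vv x
  r_swap : ∀ x y z : U, r x y z → r y x z
  r_rot : ∀ x y z : U, r x y z → r y z x
  r_irr : ∀ x y : U, ¬ r x x y
  free : ∀ x y z t : U, r x y z → e x t → e y t → ¬ e z t

/-- Admissible one-point extensions in the first sort. -/
def AllowV {U : Type w} [Lg.Structure U] {ι : Type*} (v : ι → U) (S : ι → Prop)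
    (Q : ι → ι → Prop) : Prop :=
  (∀ i j, v i = v j → i = j) ∧ (∀ i, S i → ¬ vv (v i)) ∧
    ∀ i j, Q i j → i ≠ j ∧ Q j i ∧ vv (v i) ∧ ∀ k, S k → ¬ (e (v i) (v k) ∧ e (v j) (v k))

/-- Their realizations. -/
def RealV {U : Type w} [Lg.Structure U] {ι : Type*} (v : ι → U) (S : ι → Prop)
    (Q : ι → ι → Prop) (x : U) : Prop :=
  vv x ∧ ∀ i, v i ≠ x ∧ (e x (v i) ↔ S i) ∧ ∀ j, (r x (v i) (v j) ↔ Q i j)

/-- Admissible one-point extensions in the second sort. -/
def AllowZ {U : Type w} [Lg.Structure U] {ι : Type*} (v : ι → U) (S : ι → Prop) : Prop :=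
  (∀ i j, v i = v j → i = j) ∧ (∀ i, S i → vv (v i)) ∧
    ∀ i j k, S i → S j → S k → ¬ r (v i) (v j) (v k)

/-- Their realizations. -/
def RealZ {U : Type w} [Lg.Structure U] {ι : Type*} (v : ι → U) (S : ι → Prop) (b : Prop)
    (x : U) : Prop :=
  ¬ vv x ∧ (a0 x ↔ b) ∧ ∀ i, v i ≠ x ∧ (e (v i) x ↔ S i)

/-- The models we are interested in. -/
structure Rich (U : Type w) [Lg.Structure U] : Prop extends Univ U where
  extV : ∀ (n : ℕ) (S : Fin n → Prop) (Q : Fin n → Fin n → Prop) (v : Fin n → U),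
    AllowV v S Q → ∃ x, RealV v S Q x
  extZ : ∀ (n : ℕ) (S : Fin n → Prop) (b : Prop) (v : Fin n → U),
    AllowZ v S → ∃ x, RealZ v S b x

theorem Rich.extV' {U : Type w} [Lg.Structure U] (h : Rich U) {ι : Type*} [Finite ι]
    {S : ι → Prop} {Q : ι → ι → Prop} {v : ι → U} (hv : AllowV v S Q) :
    ∃ x, RealV v S Q x := by
  obtain ⟨n, ⟨f⟩⟩ := Finite.exists_equiv_fin ι
  obtain ⟨x, hx1, hx2⟩ := h.extV n (fun i => S (f.symm i)) (fun i j => Q (f.symm i) (f.symm j))
    (fun i => v (f.symm i)) ⟨fun i j hij => f.symm.injective (hv.1 _ _ hij),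
      fun i hi => hv.2.1 _ hi, fun i j hij => ⟨fun hij' => (hv.2.2 _ _ hij).1 (by rw [hij']),
        (hv.2.2 _ _ hij).2.1, (hv.2.2 _ _ hij).2.2.1, fun k hk => (hv.2.2 _ _ hij).2.2.2 _ hk⟩⟩
  refine ⟨x, hx1, fun i => ⟨?_, ?_, fun j => ?_⟩⟩
  · have := (hx2 (f i)).1
    simpa using this
  · have := (hx2 (f i)).2.1
    simpa using this
  · have := (hx2 (f i)).2.2 (f j)
    simpa using this

theorem Rich.extZ' {U : Type w} [Lg.Structure U] (h : Rich U) {ι : Type*} [Finite ι]
    {S : ι → Prop} (b : Prop) {v : ι → U} (hv : AllowZ v S) :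
    ∃ x, RealZ v S b x := by
  obtain ⟨n, ⟨f⟩⟩ := Finite.exists_equiv_fin ι
  obtain ⟨x, hx1, hx2, hx3⟩ := h.extZ n (fun i => S (f.symm i)) b
    (fun i => v (f.symm i)) ⟨fun i j hij => f.symm.injective (hv.1 _ _ hij),
      fun i hi => hv.2.1 _ hi, fun i j k hi hj hk => hv.2.2 _ _ _ hi hj hk⟩
  refine ⟨x, hx1, hx2, fun i => ⟨?_, ?_⟩⟩
  · have := (hx3 (f i)).1
    simpa using this
  · have := (hx3 (f i)).2
    simpa using this

end Helper8Orth
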