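import Mathlib
import Pool.Agent.Helper8_Orth.Struct

set_option autoImplicit false

open FirstOrder FirstOrder.Language

namespace Helper8Orth

universe u v w

section UnivFacts

variable {U : Type u} [Lg.Structure U] (h : Univ U)

include h

theorem Univ.rot_iff (x y z : U) : r x y z ↔ r y z x :=
  ⟨h.r_rot x y z, fun h1 => h.r_rot _ _ _ (h.r_rot _ _ _ h1)⟩

theorem Univ.swap_iff (x y z : U) : r x y z ↔ r y x z :=
  ⟨h.r_swap x y z, h.r_swap y x z⟩

theorem Univ.swap' (x y z : U) : r x y z ↔ r x z y :=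
  (h.rot_iff x y z).trans ((h.swap_iff y z x).trans (h.rot_iff x z y).symm)

theorem Univ.irr1 (x y : U) : ¬ r x x y := h.r_irr x y

theorem Univ.irr2 (x y : U) : ¬ r x y x := by
  rw [h.rot_iff, h.rot_iff]
  exact h.r_irr x y

theorem Univ.irr3 (x y : U) : ¬ r y x x := by
  rw [h.rot_iff]
  exact h.r_irr x y

theorem Univ.vv2 {x y z : U} (hr : r x y z) : vv y := h.r_vv _ _ _ (h.r_rot _ _ _ hr)

theorem Univ.vv3 {x y z : U} (hr : r x y z) : vv z :=
  h.r_vv _ _ _ (h.r_rot _ _ _ (h.r_rot _ _ _ hr))

end UnivFacts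

section Assemble

/-- Extend a tuple by one element. -/
def ext {ι : Type*} {U : Type u} (v : ι → U) (x : U) : Option ι → U := fun o => o.elim x v

variable {ι : Type*} {U : Type u} {U' : Type v} [Lg.Structure U] [Lg.Structure U']
  (hU : Univ U) (hU' : Univ U') {v : ι → U} {v' : ι → U'} (h : QEq v v') {x : U} {x' : U'}

include hU hU' h

theorem qeq_ext_V (hx : vv x) (hx' : vv x') (hne : ∀ i, v i ≠ x) (hne' : ∀ i, v' i ≠ x')
    (he : ∀ i, e x (v i) ↔ e x' (v' i)) (hr : ∀ i j, r x (v i) (v j) ↔ r x' (v' i) (v' j)) :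
    QEq (ext v x) (ext v' x') := by
  constructor
  · rintro (_ | i) (_ | j)
    · exact Iff.intro (fun _ => rfl) (fun _ => rfl)
    · exact iff_of_false (fun h1 => hne j h1.symm) (fun h1 => hne' j h1.symm)
    · exact iff_of_false (fun h1 => hne i h1) (fun h1 => hne' i h1)
    · exact h.eq i j
  · rintro (_ | i)
    · exact iff_of_false hx.1 hx'.1
    · exact h.h0 i
  · rintro (_ | i)
    · exact iff_of_false hx.2 hx'.2
    · exact h.h1 i
  · rintro (_ | i) (_ | j)
    · exact iff_of_false (fun h1 => hU.e_right _ _ h1 hx) (fun h1 => hU'.e_right _ _ h1 hx')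
    · exact he j
    · exact iff_of_false (fun h1 => hU.e_right _ _ h1 hx) (fun h1 => hU'.e_right _ _ h1 hx')
    · exact h.he i j
  · rintro (_ | i) (_ | j) (_ | k)
    · exact iff_of_false (hU.irr1 _ _) (hU'.irr1 _ _)
    · exact iff_of_false (hU.irr1 _ _) (hU'.irr1 _ _)
    · exact iff_of_false (hU.irr2 _ _) (hU'.irr2 _ _)
    · exact hr j k
    · exact iff_of_false (hU.irr3 _ _) (hU'.irr3 _ _)
    · change r (v i) x (v k) ↔ r (v' i) x' (v' k)
      rw [hU.swap_iff, hU'.swap_iff]
      exact hr i k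
    · change r (v i) (v j) x ↔ r (v' i) (v' j) x'
      rw [← hU.rot_iff, ← hU'.rot_iff]
      exact hr i j
    · exact h.hr i j k

theorem qeq_ext_Z (hx : ¬ vv x) (hx' : ¬ vv x') (h0 : a0 x ↔ a0 x') (hne : ∀ i, v i ≠ x)
    (hne' : ∀ i, v' i ≠ x') (he : ∀ i, e (v i) x ↔ e (v' i) x') :
    QEq (ext v x) (ext v' x') := by
  have k1 : a1 x ↔ ¬ a0 x := by
    constructor
    · exact fun h1 h2 => hU.disj x ⟨h2, h1⟩
    · intro h1
      by_contra h2
      exact hx ⟨h1, h2⟩
  have k1' : a1 x' ↔ ¬ a0 x' := by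
    constructor
    · exact fun h1 h2 => hU'.disj x' ⟨h2, h1⟩
    · intro h1
      by_contra h2
      exact hx' ⟨h1, h2⟩
  constructor
  · rintro (_ | i) (_ | j)
    · exact Iff.intro (fun _ => rfl) (fun _ => rfl)
    · exact iff_of_false (fun h1 => hne j h1.symm) (fun h1 => hne' j h1.symm)
    · exact iff_of_false (fun h1 => hne i h1) (fun h1 => hne' i h1)
    · exact h.eq i j
  · rintro (_ | i)
    · exact h0
    · exact h.h0 i
  · rintro (_ | i)
    · change a1 x ↔ a1 x'
      rw [k1, k1', h0]
    · exact h.h1 i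
  · rintro (_ | i) (_ | j)
    · exact iff_of_false (fun h1 => hx (hU.e_left _ _ h1)) (fun h1 => hx' (hU'.e_left _ _ h1))
    · exact iff_of_false (fun h1 => hx (hU.e_left _ _ h1)) (fun h1 => hx' (hU'.e_left _ _ h1))
    · exact he i
    · exact h.he i j
  · rintro (_ | i) (_ | j) (_ | k)
    · exact iff_of_false (hU.irr1 _ _) (hU'.irr1 _ _)
    · exact iff_of_false (hU.irr1 _ _) (hU'.irr1 _ _)
    · exact iff_of_false (hU.irr2 _ _) (hU'.irr2 _ _)
    · exact iff_of_false (fun h1 => hx (hU.r_vv _ _ _ h1)) (fun h1 => hx' (hU'.r_vv _ _ _ h1))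
    · exact iff_of_false (hU.irr3 _ _) (hU'.irr3 _ _)
    · exact iff_of_false (fun h1 => hx (hU.vv2 h1)) (fun h1 => hx' (hU'.vv2 h1))
    · exact iff_of_false (fun h1 => hx (hU.vv3 h1)) (fun h1 => hx' (hU'.vv3 h1))
    · exact h.hr i j k

end Assemble

/-- Back and forth. -/
theorem extend {ι : Type*} [Finite ι] {U : Type u} {U' : Type v} [Lg.Structure U]
    [Lg.Structure U'] (hU : Univ U) (hU' : Rich U') {v : ι → U} {v' : ι → U'} (h : QEq v v')
    (x : U) : ∃ x' : U', QEq (ext v x) (ext v' x') := by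
  classical
  by_cases hx : ∃ i, v i = x
  · obtain ⟨i, rfl⟩ := hx
    refine ⟨v' i, ?_⟩
    have h1 := h.comp (fun o : Option ι => o.elim i id)
    have e1 : v ∘ (fun o : Option ι => o.elim i id) = ext v (v i) := by
      funext o
      rcases o with _ | o <;> rfl
    have e2 : v' ∘ (fun o : Option ι => o.elim i id) = ext v' (v' i) := by
      funext o
      rcases o with _ | o <;> rfl
    rw [e1, e2] at h1
    exact h1
  have hne : ∀ i, v i ≠ x := fun i hi => hx ⟨i, hi⟩
  -- enumerate the range of `v'` without repetition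
  let κ := Set.range v'
  let g : κ → ι := fun k => k.2.choose
  have hg : ∀ k : κ, v' (g k) = k.1 := fun k => k.2.choose_spec
  let w' : κ → U' := fun k => v' (g k)
  let w : κ → U := fun k => v (g k)
  have hw : QEq w w' := h.comp g
  have hinj : ∀ k l : κ, w' k = w' l → k = l := by
    intro k l hkl
    apply Subtype.ext
    rw [← hg k, ← hg l]
    exact hkl
  let c : ι → κ := fun i => ⟨v' i, i, rfl⟩
  have hc' : ∀ i, w' (c i) = v' i := fun i => hg (c i)
  have hc : ∀ i, w (c i) = v i := fun i => (h.eq _ _).2 (hc' i)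
  have hvv : ∀ k, vv (w k) ↔ vv (w' k) := fun k =>
    and_congr (not_congr (hw.h0 k)) (not_congr (hw.h1 k))
  by_cases hxv : vv x
  · have allow : AllowV w' (fun k => e x (w k)) (fun k l => r x (w k) (w l)) := by
      refine ⟨hinj, ?_, ?_⟩
      · intro k hk
        rw [← hvv]
        exact hU.e_right _ _ hk
      · intro k l hkl
        refine ⟨?_, (hU.swap' _ _ _).1 hkl, (hvv k).1 (hU.vv2 hkl), ?_⟩
        · rintro rfl
          exact hU.irr3 _ _ hkl
        · rintro m hm ⟨h1, h2⟩
          rw [← hw.he] at h1 h2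
          exact hU.free _ _ _ _ hkl hm h1 h2
    obtain ⟨x', hx', hx2⟩ := hU'.extV' allow
    refine ⟨x', qeq_ext_V hU hU'.toUniv h hxv hx' hne ?_ ?_ ?_⟩
    · intro i
      have := (hx2 (c i)).1
      rwa [hc'] at this
    · intro i
      have := (hx2 (c i)).2.1
      beta_reduce at this
      rw [hc', hc] at this
      exact this.symm
    · intro i j
      have := (hx2 (c i)).2.2 (c j)
      beta_reduce at this
      rw [hc', hc', hc, hc] at this
      exact this.symm
  · have allow : AllowZ w' (fun k => e (w k) x) := by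
      refine ⟨hinj, ?_, ?_⟩
      · intro k hk
        rw [← hvv]
        exact hU.e_left _ _ hk
      · intro k l m hk hl hm hr
        rw [← hw.hr] at hr
        exact hU.free _ _ _ _ hr hk hl hm
    obtain ⟨x', hx', hx0, hx2⟩ := hU'.extZ' (a0 x) allow
    refine ⟨x', qeq_ext_Z hU hU'.toUniv h hxv hx' hx0.symm hne ?_ ?_⟩
    · intro i
      have := (hx2 (c i)).1
      rwa [hc'] at this
    · intro i
      have := (hx2 (c i)).2
      beta_reduce at this
      rw [hc', hc] at this
      exact this.symm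

/-- Terms are variables. -/
theorem term_var {α : Type*} (t : Lg.Term α) : ∃ a, t = Term.var a := by
  cases t with
  | var a => exact ⟨a, rfl⟩
  | func f _ => exact f.elim

/-- Tuples with the same quantifier free type in rich structures have the same type. -/
theorem qeq_bounded {α : Type*} [Finite α] {U : Type u} {U' : Type v} [Lg.Structure U]
    [Lg.Structure U'] (hU : Rich U) (hU' : Rich U') {n : ℕ} (φ : Lg.BoundedFormula α n) :
    ∀ (v : α → U) (xs : Fin n → U) (v' : α → U') (xs' : Fin n → U'),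
      QEq (Sum.elim v xs) (Sum.elim v' xs') → (φ.Realize v xs ↔ φ.Realize v' xs') := by
  induction φ with
  | falsum => exact fun _ _ _ _ _ => Iff.rfl
  | equal t₁ t₂ =>
    intro v xs v' xs' h
    obtain ⟨i, rfl⟩ := term_var t₁
    obtain ⟨j, rfl⟩ := term_var t₂
    exact h.eq i j
  | rel R ts =>
    intro v xs v' xs' h
    choose i hi using fun k => term_var (ts k)
    obtain rfl : ts = fun k => Term.var (i k) := funext hi
    simp only [BoundedFormula.Realize, Term.realize_var]
    cases R with
    | A0 =>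
      exact (relMap_one Rel.A0 (fun k => Sum.elim v xs (i k))).trans
        ((h.h0 _).trans (relMap_one Rel.A0 (fun k => Sum.elim v' xs' (i k))).symm)
    | A1 =>
      exact (relMap_one Rel.A1 (fun k => Sum.elim v xs (i k))).trans
        ((h.h1 _).trans (relMap_one Rel.A1 (fun k => Sum.elim v' xs' (i k))).symm)
    | E =>
      exact (relMap_two Rel.E (fun k => Sum.elim v xs (i k))).trans
        ((h.he _ _).trans (relMap_two Rel.E (fun k => Sum.elim v' xs' (i k))).symm)
    | R =>
      exact (relMap_three Rel.R (fun k => Sum.elim v xs (i k))).trans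
        ((h.hr _ _ _).trans (relMap_three Rel.R (fun k => Sum.elim v' xs' (i k))).symm)
  | imp φ ψ hφ hψ =>
    intro v xs v' xs' h
    rw [BoundedFormula.realize_imp, BoundedFormula.realize_imp, hφ v xs v' xs' h,
      hψ v xs v' xs' h]
  | @all n φ hφ =>
    intro v xs v' xs' h
    rw [BoundedFormula.realize_all, BoundedFormula.realize_all]
    let g : α ⊕ Fin (n + 1) → Option (α ⊕ Fin n) := Sum.elim (fun a => some (Sum.inl a))
      (fun i => Fin.lastCases (motive := fun _ => Option (α ⊕ Fin n)) none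
        (fun i => some (Sum.inr i)) i)
    have k1 : ∀ x : U, Sum.elim v (Fin.snoc xs x : Fin (n + 1) → U) =
        ext (Sum.elim v xs) x ∘ g := by
      intro x
      funext a
      rcases a with a | i
      · rfl
      · refine Fin.lastCases ?_ (fun i => ?_) i
        · simp [g, ext]
        · simp [g, ext]
    have k2 : ∀ x : U', Sum.elim v' (Fin.snoc xs' x : Fin (n + 1) → U') =
        ext (Sum.elim v' xs') x ∘ g := by
      intro x
      funext a
      rcases a with a | i
      · rfl
      · refine Fin.lastCases ?_ (fun i => ?_) i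
        · simp [g, ext]
        · simp [g, ext]
    constructor
    · intro h1 x'
      obtain ⟨x, hx⟩ := extend hU'.toUniv hU h.symm x'
      refine (hφ v (Fin.snoc xs x) v' (Fin.snoc xs' x') ?_).1 (h1 x)
      rw [k1, k2]
      exact (hx.symm).comp g
    · intro h1 x
      obtain ⟨x', hx⟩ := extend hU.toUniv hU' h x
      refine (hφ v (Fin.snoc xs x) v' (Fin.snoc xs' x') ?_).2 (h1 x')
      rw [k1, k2]
      exact hx.comp g

theorem qeq_formula {α : Type*} [Finite α] {U : Type u} {U' : Type v} [Lg.Structure U]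
    [Lg.Structure U'] (hU : Rich U) (hU' : Rich U') (φ : Lg.Formula α) {v : α → U}
    {v' : α → U'} (h : QEq v v') : φ.Realize v ↔ φ.Realize v' := by
  refine qeq_bounded hU hU' φ v default v' default ?_
  have h1 := h.comp (Sum.elim id (fun i : Fin 0 => i.elim0) : α ⊕ Fin 0 → α)
  have e1 : v ∘ (Sum.elim id (fun i : Fin 0 => i.elim0) : α ⊕ Fin 0 → α) =
      Sum.elim v default := by
    funext a
    rcases a with a | a
    · rfl
    · exact a.elim0
  have e2 : v' ∘ (Sum.elim id (fun i : Fin 0 => i.elim0) : α ⊕ Fin 0 → α) =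
      Sum.elim v' default := by
    funext a
    rcases a with a | a
    · rfl
    · exact a.elim0
  rw [e1, e2] at h1
  exact h1

end Helper8Orth
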