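import Mathlib
import Pool.Agent.Helper8_Orth.BackForth

set_option autoImplicit false

open FirstOrder FirstOrder.Language

namespace Helper8Orth

universe u v w

/-- Codes: a sort, a finite set of neighbours, a finite set of pairs. -/
abbrev Code := Fin 3 × Finset ℕ × Finset (ℕ × ℕ)

/-- The code of a number. -/
noncomputable def code (n : ℕ) : Code := (Encodable.decode (α := Code) (Nat.unpair n).1).getD default

theorem code_surj (c : Code) (b : ℕ) : ∃ n, b ≤ n ∧ code n = c :=
  ⟨Nat.pair (Encodable.encode c) b, Nat.right_le_pair _ _, by simp [code]⟩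

/-- first sort -/
def sV (n : ℕ) : Prop := (code n).1 = 0

/-- neighbours -/
noncomputable def NN (n : ℕ) : Finset ℕ := (code n).2.1

/-- pairs -/
noncomputable def PP (n : ℕ) : Finset (ℕ × ℕ) := (code n).2.2

/-- The binary relation, relative to a set of good numbers. -/
def EEf (f : ℕ → Prop) (l z : ℕ) : Prop :=
  sV l ∧ ¬ sV z ∧ ((l < z ∧ f z ∧ l ∈ NN z) ∨ (z < l ∧ f l ∧ z ∈ NN l))

/-- The condition for a number to be good. -/
def okBody (n : ℕ) (f : ℕ → Prop) : Prop :=
  (sV n → ∀ l m z, l < n → m < n → z < n → (l, m) ∈ PP n → z ∈ NN n →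
    ¬ (EEf f l z ∧ EEf f m z)) ∧
  (¬ sV n → ∀ l m k, l < m → m < k → k < n → l ∈ NN n → m ∈ NN n → k ∈ NN n →
    sV l → sV m → sV k → ¬ (f k ∧ (l, m) ∈ PP k))

/-- Good numbers. -/
def ok (n : ℕ) : Prop := okBody n (fun k => ∃ _h : k < n, ok k)
termination_by n
decreasing_by exact _h

theorem EEf_congr {f g : ℕ → Prop} {n l z : ℕ} (hl : l < n) (hz : z < n)
    (h : ∀ k, k < n → (f k ↔ g k)) : EEf f l z ↔ EEf g l z := by
  unfold EEf
  rw [h z hz, h l hl]

theorem ok_iff (n : ℕ) : ok n ↔ okBody n ok := by
  rw [ok]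
  have h : ∀ k, k < n → ((∃ _h : k < n, ok k) ↔ ok k) := fun k hk =>
    ⟨fun ⟨_, h2⟩ => h2, fun h2 => ⟨hk, h2⟩⟩
  unfold okBody
  refine and_congr ?_ ?_
  · refine imp_congr_right fun _ => forall_congr' fun l => forall_congr' fun m =>
      forall_congr' fun z => imp_congr_right fun hl => imp_congr_right fun hm =>
      imp_congr_right fun hz => imp_congr_right fun _ => imp_congr_right fun _ => ?_
    rw [EEf_congr hl hz h, EEf_congr hm hz h]
  · refine imp_congr_right fun _ => forall_congr' fun l => forall_congr' fun m =>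
      forall_congr' fun k => imp_congr_right fun hl => imp_congr_right fun hm =>
      imp_congr_right fun hk => imp_congr_right fun _ => imp_congr_right fun _ =>
      imp_congr_right fun _ => imp_congr_right fun _ => imp_congr_right fun _ =>
      imp_congr_right fun _ => ?_
    beta_reduce
    rw [h k hk]

/-- sorted triples -/
def R0 (l m k : ℕ) : Prop := l < m ∧ m < k ∧ sV l ∧ sV m ∧ sV k ∧ ok k ∧ (l, m) ∈ PP k

/-- the ternary relation -/
def RR (x y z : ℕ) : Prop :=
  R0 x y z ∨ R0 x z y ∨ R0 y x z ∨ R0 y z x ∨ R0 z x y ∨ R0 z y x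

theorem R0_free {l m k t : ℕ} (h : R0 l m k) (h1 : EEf ok l t) (h2 : EEf ok m t)
    (h3 : EEf ok k t) : False := by
  obtain ⟨hlm, hmk, hl, hm, hk, hok, hP⟩ := h
  rcases lt_trichotomy t k with htk | rfl | htk
  · obtain ⟨-, hst, h4⟩ := h3
    rcases h4 with h4 | h4
    · omega
    · exact ((ok_iff k).1 hok).1 hk l m t (by omega) hmk htk hP h4.2.2 ⟨h1, h2⟩
  · exact h3.2.1 hk
  · obtain ⟨-, hst, h4⟩ := h3
    rcases h4 with h4 | h4
    · have hl' : l ∈ NN t := by
        rcases h1.2.2 with h5 | h5
        · exact h5.2.2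
        · omega
      have hm' : m ∈ NN t := by
        rcases h2.2.2 with h5 | h5
        · exact h5.2.2
        · omega
      exact ((ok_iff t).1 h4.2.1).2 hst l m k hlm hmk htk hl' hm' h4.2.2 hl hm hk ⟨hok, hP⟩
    · omega

/-- The model. -/
def Mod : Type w := ULift.{w} ℕ

noncomputable instance : Lg.Structure Mod.{w} where
  funMap := fun {_} f _ => f.elim
  RelMap := fun {_} rel xs => match rel, xs with
    | Rel.A0, xs => (code (xs 0).down).1 = 1
    | Rel.A1, xs => (code (xs 0).down).1 = 2
    | Rel.E, xs => EEf ok (xs 0).down (xs 1).down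
    | Rel.R, xs => RR (xs 0).down (xs 1).down (xs 2).down

theorem mod_a0 (x : Mod.{w}) : a0 x ↔ (code x.down).1 = 1 := Iff.rfl

theorem mod_a1 (x : Mod.{w}) : a1 x ↔ (code x.down).1 = 2 := Iff.rfl

theorem mod_vv (x : Mod.{w}) : vv x ↔ sV x.down := by
  unfold vv sV
  rw [mod_a0, mod_a1]
  generalize (code x.down).1 = c
  fin_cases c <;> simp

theorem mod_e (x y : Mod.{w}) : e x y ↔ EEf ok x.down y.down := Iff.rfl

theorem mod_r (x y z : Mod.{w}) : r x y z ↔ RR x.down y.down z.down := Iff.rfl

theorem mod_univ : Univ Mod.{w} where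
  disj := by
    intro x h
    rw [mod_a0, mod_a1] at h
    rw [h.1] at h
    exact absurd h.2 (by decide)
  e_left := fun x y h => (mod_vv x).2 h.1
  e_right := fun x y h h' => h.2.1 ((mod_vv y).1 h')
  r_vv := by
    intro x y z h
    rw [mod_vv]
    rw [mod_r] at h
    unfold RR R0 at h
    tauto
  r_swap := by
    intro x y z h
    rw [mod_r] at h ⊢
    unfold RR at h ⊢
    tauto
  r_rot := by
    intro x y z h
    rw [mod_r] at h ⊢
    unfold RR at h ⊢
    tauto
  r_irr := by
    intro x y h
    rw [mod_r] at h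
    unfold RR R0 at h
    have h1 : ∀ a b : ℕ, ¬ (a < a) := fun a b => lt_irrefl a
    rcases h with h | h | h | h | h | h <;> omega
  free := by
    intro x y z t h h1 h2 h3
    rw [mod_r] at h
    rw [mod_e] at h1 h2 h3
    rcases h with h | h | h | h | h | h
    · exact R0_free h h1 h2 h3
    · exact R0_free h h1 h3 h2
    · exact R0_free h h2 h1 h3
    · exact R0_free h h2 h3 h1
    · exact R0_free h h3 h1 h2
    · exact R0_free h h3 h2 h1

theorem mod_rich : Rich Mod.{w} where
  toUniv := mod_univ
  extV := by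
    classical
    intro n S Q v hv
    obtain ⟨hinj, hS, hQ⟩ := hv
    let c : Code := (0, (Finset.univ.filter S).image (fun i => (v i).down),
      (Finset.univ.filter (fun p : Fin n × Fin n => Q p.1 p.2)).image
        (fun p => ((v p.1).down, (v p.2).down)))
    obtain ⟨x, hx, hc⟩ := code_surj c (Finset.univ.sup (fun i => (v i).down) + 1)
    have hlt : ∀ i, (v i).down < x := by
      intro i
      have := Finset.le_sup (f := fun i => (v i).down) (Finset.mem_univ i)
      beta_reduce at this
      omega
    have hsx : sV x := by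
      unfold sV
      rw [hc]
    have hN : ∀ z, z ∈ NN x ↔ ∃ i, S i ∧ (v i).down = z := by
      intro z
      unfold NN
      rw [hc]
      simp [c]
    have hP : ∀ l m, (l, m) ∈ PP x ↔ ∃ i j, Q i j ∧ (v i).down = l ∧ (v j).down = m := by
      intro l m
      unfold PP
      rw [hc]
      simp [c]
    have hinj' : ∀ i j, (v i).down = (v j).down → i = j := fun i j h =>
      hinj i j (ULift.ext _ _ h)
    have hok : ok x := by
      rw [ok_iff]
      refine ⟨fun _ l m z _ _ _ hlm hz => ?_, fun h => absurd hsx h⟩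
      obtain ⟨i, j, hij, rfl, rfl⟩ := (hP l m).1 hlm
      obtain ⟨k, hk, rfl⟩ := (hN z).1 hz
      exact (hQ i j hij).2.2.2 k hk
    refine ⟨⟨x⟩, (mod_vv _).2 hsx, fun i => ⟨?_, ?_, fun j => ?_⟩⟩
    · intro h
      have := hlt i
      rw [h] at this
      exact lt_irrefl _ this
    · rw [mod_e]
      constructor
      · rintro ⟨-, -, h | h⟩
        · have := hlt i
          have h1 := h.1
          change x < (v i).down at h1
          omega
        · obtain ⟨k, hk, hki⟩ := (hN _).1 h.2.2
          rwa [← hinj' _ _ hki]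
      · intro h
        refine ⟨hsx, fun h1 => hS i h ((mod_vv _).2 h1), Or.inr ⟨hlt i, hok, (hN _).2 ⟨i, h, rfl⟩⟩⟩
    · have hsym : ∀ i j, Q i j → Q j i := fun i j h => (hQ i j h).2.1
      have key : ∀ i j, R0 (v i).down (v j).down x → Q i j := by
        intro i j h
        obtain ⟨i', j', h1, h2, h3⟩ := (hP _ _).1 h.2.2.2.2.2.2
        rwa [← hinj' _ _ h2, ← hinj' _ _ h3]
      have key2 : ∀ i j, Q i j → (v i).down < (v j).down → R0 (v i).down (v j).down x := by
        intro i j h h1
        exact ⟨h1, hlt j, (mod_vv _).1 (hQ i j h).2.2.1, (mod_vv _).1 (hQ j i (hsym _ _ h)).2.2.1,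
          hsx, hok, (hP _ _).2 ⟨i, j, h, rfl, rfl⟩⟩
      rw [mod_r]
      constructor
      · intro h
        have h1 := hlt i
        have h2 := hlt j
        change R0 x (v i).down (v j).down ∨ R0 x (v j).down (v i).down ∨
          R0 (v i).down x (v j).down ∨ R0 (v i).down (v j).down x ∨
          R0 (v j).down x (v i).down ∨ R0 (v j).down (v i).down x at h
        rcases h with h | h | h | h | h | h
        · have := h.1; omega
        · have := h.1; omega
        · have := h.2.1; omega
        · exact key _ _ h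
        · have := h.2.1; omega
        · exact hsym _ _ (key _ _ h)
      · intro h
        have hne : (v i).down ≠ (v j).down := fun h1 => (hQ i j h).1 (hinj' _ _ h1)
        change R0 x (v i).down (v j).down ∨ R0 x (v j).down (v i).down ∨
          R0 (v i).down x (v j).down ∨ R0 (v i).down (v j).down x ∨
          R0 (v j).down x (v i).down ∨ R0 (v j).down (v i).down x
        rcases lt_or_gt_of_ne hne with h1 | h1
        · exact Or.inr (Or.inr (Or.inr (Or.inl (key2 _ _ h h1))))
        · exact Or.inr (Or.inr (Or.inr (Or.inr (Or.inr (key2 _ _ (hsym _ _ h) h1)))))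
  extZ := by
    classical
    intro n S b v hv
    obtain ⟨hinj, hS, hI⟩ := hv
    let c : Code := (if b then 1 else 2, (Finset.univ.filter S).image (fun i => (v i).down), ∅)
    obtain ⟨x, hx, hc⟩ := code_surj c (Finset.univ.sup (fun i => (v i).down) + 1)
    have hlt : ∀ i, (v i).down < x := by
      intro i
      have := Finset.le_sup (f := fun i => (v i).down) (Finset.mem_univ i)
      beta_reduce at this
      omega
    have hsx : ¬ sV x := by
      unfold sV
      rw [hc]
      by_cases hb : b <;> simp [c, hb]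
    have hN : ∀ z, z ∈ NN x ↔ ∃ i, S i ∧ (v i).down = z := by
      intro z
      unfold NN
      rw [hc]
      simp [c]
    have hinj' : ∀ i j, (v i).down = (v j).down → i = j := fun i j h =>
      hinj i j (ULift.ext _ _ h)
    have hok : ok x := by
      rw [ok_iff]
      refine ⟨fun h => absurd h hsx, fun _ l m k hlm hmk _ hl hm hk sl sm sk hh => ?_⟩
      obtain ⟨i, hi, rfl⟩ := (hN l).1 hl
      obtain ⟨j, hj, rfl⟩ := (hN m).1 hm
      obtain ⟨k', hk', rfl⟩ := (hN k).1 hk
      exact hI i j k' hi hj hk' ((mod_r _ _ _).2 (Or.inl ⟨hlm, hmk, sl, sm, sk, hh.1, hh.2⟩))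
    refine ⟨⟨x⟩, fun h => hsx ((mod_vv _).1 h), ?_, fun i => ⟨?_, ?_⟩⟩
    · rw [mod_a0]
      change (code x).1 = 1 ↔ b
      rw [hc]
      by_cases hb : b <;> simp [c, hb]
    · intro h
      have := hlt i
      rw [h] at this
      exact lt_irrefl _ this
    · rw [mod_e]
      constructor
      · rintro ⟨-, -, h | h⟩
        · obtain ⟨k, hk, hki⟩ := (hN _).1 h.2.2
          rwa [← hinj' _ _ hki]
        · have := hlt i
          have h1 := h.1
          change x < (v i).down at h1
          omega
      · intro h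
        exact ⟨(mod_vv _).1 (hS i h), hsx, Or.inl ⟨hlt i, hok, (hN _).2 ⟨i, h, rfl⟩⟩⟩

end Helper8Orth
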