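import Mathlib
import Pool.Agent.Helper8_Orth.Model

set_option autoImplicit false

open FirstOrder FirstOrder.Language

namespace Helper8Orth

universe u v w

/-- Uniformly definable properties of tuples. -/
def UD {α : Type} (P : ∀ (U : Type w) [Lg.Structure U], (α → U) → Prop) : Prop :=
  ∃ ψ : Lg.Formula α, ∀ (U : Type w) [Lg.Structure U] (v : α → U), ψ.Realize v ↔ P U v

section Closure

variable {α : Type} {P Q : ∀ (U : Type w) [Lg.Structure U], (α → U) → Prop}

theorem UD.congr (hP : UD P) (h : ∀ (U : Type w) [Lg.Structure U] (v : α → U), P U v ↔ Q U v) :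
    UD Q := by
  obtain ⟨ψ, hψ⟩ := hP
  exact ⟨ψ, fun U _ v => (hψ U v).trans (h U v)⟩

theorem UD.not (hP : UD P) : UD (fun U _ v => ¬ P U v) := by
  obtain ⟨ψ, hψ⟩ := hP
  exact ⟨ψ.not, fun U _ v => by rw [Formula.realize_not, hψ]⟩

theorem UD.and (hP : UD P) (hQ : UD Q) : UD (fun U _ v => P U v ∧ Q U v) := by
  obtain ⟨ψ, hψ⟩ := hP
  obtain ⟨χ, hχ⟩ := hQ
  exact ⟨ψ ⊓ χ, fun U _ v => by rw [Formula.realize_inf, hψ, hχ]⟩

theorem UD.imp (hP : UD P) (hQ : UD Q) : UD (fun U _ v => P U v → Q U v) := by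
  obtain ⟨ψ, hψ⟩ := hP
  obtain ⟨χ, hχ⟩ := hQ
  exact ⟨ψ.imp χ, fun U _ v => by rw [Formula.realize_imp, hψ, hχ]⟩

theorem UD.iff (hP : UD P) (hQ : UD Q) : UD (fun U _ v => P U v ↔ Q U v) := by
  obtain ⟨ψ, hψ⟩ := hP
  obtain ⟨χ, hχ⟩ := hQ
  exact ⟨ψ.iff χ, fun U _ v => by rw [Formula.realize_iff, hψ, hχ]⟩

theorem UD.const (p : Prop) : UD (fun (U : Type w) _ (_ : α → U) => p) := by
  by_cases hp : p
  · exact ⟨⊤, fun U _ v => by simp [hp]⟩
  · exact ⟨⊥, fun U _ v => by simp [hp]⟩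

theorem UD.all {ι : Type} [Finite ι] {P : ι → ∀ (U : Type w) [Lg.Structure U], (α → U) → Prop}
    (hP : ∀ i, UD (P i)) : UD (fun U _ v => ∀ i, P i U v) := by
  choose ψ hψ using hP
  exact ⟨Formula.iInf ψ, fun U _ v => by
    rw [Formula.realize_iInf]
    exact forall_congr' fun i => hψ i U v⟩

theorem UD.ex {P : ∀ (U : Type w) [Lg.Structure U], (Option α → U) → Prop}
    (hP : UD P) : UD (fun U _ (v : α → U) => ∃ x, P U (ext v x)) := by
  obtain ⟨ψ, hψ⟩ := hP
  refine ⟨(ψ.relabel (fun o : Option α => o.elim (Sum.inr ()) Sum.inl) :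
    Lg.Formula (α ⊕ Unit)).iExs Unit, fun U _ v => ?_⟩
  rw [Formula.realize_iExs]
  constructor
  · rintro ⟨x, hx⟩
    refine ⟨x (), ?_⟩
    rw [Formula.realize_relabel, hψ] at hx
    have : Sum.elim v x ∘ (fun o : Option α => o.elim (Sum.inr ()) Sum.inl) = ext v (x ()) := by
      funext o
      rcases o with _ | o <;> rfl
    rwa [this] at hx
  · rintro ⟨x, hx⟩
    refine ⟨fun _ => x, ?_⟩
    rw [Formula.realize_relabel, hψ]
    have : Sum.elim v (fun _ => x) ∘ (fun o : Option α => o.elim (Sum.inr ()) Sum.inl) =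
        ext v x := by
      funext o
      rcases o with _ | o <;> rfl
    rwa [this]

theorem UD.eq (i j : α) : UD (fun (U : Type w) _ (v : α → U) => v i = v j) :=
  ⟨(Term.var i).equal (Term.var j), fun U _ v => by rw [Formula.realize_equal]; rfl⟩

theorem UD.a0 (i : α) : UD (fun (U : Type w) _ (v : α → U) => a0 (v i)) :=
  ⟨Relations.formula (L := Lg) Rel.A0 (fun _ => Term.var i), fun U _ v => by
    rw [Formula.realize_rel]
    exact relMap_one _ _⟩

theorem UD.a1 (i : α) : UD (fun (U : Type w) _ (v : α → U) => a1 (v i)) :=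
  ⟨Relations.formula (L := Lg) Rel.A1 (fun _ => Term.var i), fun U _ v => by
    rw [Formula.realize_rel]
    exact relMap_one _ _⟩

theorem UD.e (i j : α) : UD (fun (U : Type w) _ (v : α → U) => e (v i) (v j)) :=
  ⟨Relations.formula (L := Lg) Rel.E ![Term.var i, Term.var j], fun U _ v => by
    rw [Formula.realize_rel]
    exact relMap_two _ _⟩

theorem UD.r (i j k : α) : UD (fun (U : Type w) _ (v : α → U) => r (v i) (v j) (v k)) :=
  ⟨Relations.formula (L := Lg) Rel.R ![Term.var i, Term.var j, Term.var k], fun U _ v => by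
    rw [Formula.realize_rel]
    exact relMap_three _ _⟩

theorem UD.vv (i : α) : UD (fun (U : Type w) _ (v : α → U) => vv (v i)) :=
  (UD.a0 i).not.and (UD.a1 i).not

/-- Transfer of a universally closed property between elementarily equivalent structures. -/
theorem UD.transfer (hP : UD P) [Finite α] {U U' : Type w} [Lg.Structure U] [Lg.Structure U']
    (hUU' : U ≅[Lg] U') (h : ∀ v, P U v) : ∀ v, P U' v := by
  obtain ⟨ψ, hψ⟩ := hP
  let σ : Lg.Sentence := Formula.iAlls α (ψ.relabel Sum.inr : Lg.Formula (Empty ⊕ α))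
  have key : ∀ (X : Type w) [Lg.Structure X], X ⊨ σ ↔ ∀ v, P X v := by
    intro X _
    unfold Sentence.Realize
    rw [Formula.realize_iAlls]
    refine forall_congr' fun v => ?_
    rw [Formula.realize_relabel, ← hψ]
    exact Iff.rfl
  exact (key U').1 ((hUU'.realize_sentence σ).1 ((key U).2 h))

end Closure

theorem ud_allowV {n : ℕ} (S : Fin n → Prop) (Q : Fin n → Fin n → Prop) :
    UD (fun (U : Type w) _ (v : Fin n → U) => AllowV v S Q) := by
  unfold AllowV
  refine (UD.all fun i => UD.all fun j => (UD.eq i j).imp (UD.const _)).and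
    ((UD.all fun i => (UD.const _).imp (UD.vv i).not).and
    (UD.all fun i => UD.all fun j => (UD.const _).imp ((UD.const _).and ((UD.const _).and
      ((UD.vv i).and (UD.all fun k => (UD.const _).imp ((UD.e i k).and (UD.e j k)).not))))))

theorem ud_allowZ {n : ℕ} (S : Fin n → Prop) :
    UD (fun (U : Type w) _ (v : Fin n → U) => AllowZ v S) := by
  unfold AllowZ
  refine (UD.all fun i => UD.all fun j => (UD.eq i j).imp (UD.const _)).and
    ((UD.all fun i => (UD.const _).imp (UD.vv i)).and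
    (UD.all fun i => UD.all fun j => UD.all fun k => (UD.const _).imp ((UD.const _).imp
      ((UD.const _).imp (UD.r i j k).not))))

theorem ud_realV {n : ℕ} (S : Fin n → Prop) (Q : Fin n → Fin n → Prop) :
    UD (fun (U : Type w) _ (v : Fin n → U) => ∃ x, RealV v S Q x) := by
  refine UD.ex (P := fun (U : Type w) _ (v : Option (Fin n) → U) =>
    vv (v none) ∧ ∀ i, v (some i) ≠ v none ∧ (e (v none) (v (some i)) ↔ S i) ∧
      ∀ j, (r (v none) (v (some i)) (v (some j)) ↔ Q i j)) ?_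
  exact (UD.vv none).and (UD.all fun i => (UD.eq _ _).not.and (((UD.e _ _).iff (UD.const _)).and
    (UD.all fun j => (UD.r _ _ _).iff (UD.const _))))

theorem ud_realZ {n : ℕ} (S : Fin n → Prop) (b : Prop) :
    UD (fun (U : Type w) _ (v : Fin n → U) => ∃ x, RealZ v S b x) := by
  refine UD.ex (P := fun (U : Type w) _ (v : Option (Fin n) → U) =>
    ¬ vv (v none) ∧ (a0 (v none) ↔ b) ∧ ∀ i, v (some i) ≠ v none ∧
      (e (v (some i)) (v none) ↔ S i)) ?_
  exact (UD.vv none).not.and (((UD.a0 _).iff (UD.const _)).and (UD.all fun i =>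
    (UD.eq _ _).not.and ((UD.e _ _).iff (UD.const _))))

theorem rich_of_equiv {U U' : Type w} [Lg.Structure U] [Lg.Structure U'] (hU : Rich U)
    (h : U ≅[Lg] U') : Rich U' where
  disj := fun x => ((UD.a0 (0 : Fin 1)).and (UD.a1 0)).not.transfer h
    (fun v => hU.disj (v 0)) (fun _ => x)
  e_left := fun x y => ((UD.e (0 : Fin 2) 1).imp (UD.vv 0)).transfer h
    (fun v => hU.e_left (v 0) (v 1)) ![x, y]
  e_right := fun x y => ((UD.e (0 : Fin 2) 1).imp (UD.vv 1).not).transfer h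
    (fun v => hU.e_right (v 0) (v 1)) ![x, y]
  r_vv := fun x y z => ((UD.r (0 : Fin 3) 1 2).imp (UD.vv 0)).transfer h
    (fun v => hU.r_vv (v 0) (v 1) (v 2)) ![x, y, z]
  r_swap := fun x y z => ((UD.r (0 : Fin 3) 1 2).imp (UD.r 1 0 2)).transfer h
    (fun v => hU.r_swap (v 0) (v 1) (v 2)) ![x, y, z]
  r_rot := fun x y z => ((UD.r (0 : Fin 3) 1 2).imp (UD.r 1 2 0)).transfer h
    (fun v => hU.r_rot (v 0) (v 1) (v 2)) ![x, y, z]
  r_irr := fun x y => (UD.r (0 : Fin 2) 0 1).not.transfer h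
    (fun v => hU.r_irr (v 0) (v 1)) ![x, y]
  free := fun x y z t => ((UD.r (0 : Fin 4) 1 2).imp ((UD.e 0 3).imp ((UD.e 1 3).imp
    (UD.e 2 3).not))).transfer h (fun v => hU.free (v 0) (v 1) (v 2) (v 3)) ![x, y, z, t]
  extV := fun n S Q => ((ud_allowV S Q).imp (ud_realV S Q)).transfer h (hU.extV n S Q)
  extZ := fun n S b => ((ud_allowZ S).imp (ud_realZ S b)).transfer h (hU.extZ n S b)

end Helper8Orth
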