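import Mathlib
import Pool.Agent.Helper8_Orth.Transfer
import Pool.Agent.Helper8_Coheir.Types

set_option autoImplicit false

open FirstOrder FirstOrder.Language

namespace Helper8Orth

universe u v w

/-- The three possible neighbourhoods. -/
def SS {U : Type w} [Lg.Structure U] (s : Fin 3) (x : U) : Prop :=
  (s = 0 → a0 x) ∧ (s = 1 → a1 x)

/-- `x` is a generic element of the first sort over the tuple `v`, with neighbourhood `SS s`. -/
def Gen {U : Type w} [Lg.Structure U] {ι : Type*} (s : Fin 3) (v : ι → U) (x : U) : Prop :=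
  vv x ∧ (∀ i, v i ≠ x) ∧ (∀ i, e x (v i) ↔ ¬ vv (v i) ∧ SS s (v i)) ∧
    ∀ i j, ¬ r x (v i) (v j)

theorem QEq.vv_iff {ι : Type*} {U : Type u} {U' : Type v} [Lg.Structure U] [Lg.Structure U']
    {v : ι → U} {v' : ι → U'} (h : QEq v v') (i : ι) : vv (v i) ↔ vv (v' i) :=
  and_congr (not_congr (h.h0 i)) (not_congr (h.h1 i))

theorem QEq.SS_iff {ι : Type*} {U : Type u} {U' : Type v} [Lg.Structure U] [Lg.Structure U']
    {v : ι → U} {v' : ι → U'} (h : QEq v v') (s : Fin 3) (i : ι) :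
    SS s (v i) ↔ SS s (v' i) :=
  and_congr (imp_congr_right fun _ => h.h0 i) (imp_congr_right fun _ => h.h1 i)

theorem gen_qeq {ι : Type*} {U : Type u} {U' : Type v} [Lg.Structure U] [Lg.Structure U']
    (hU : Univ U) (hU' : Univ U') {v : ι → U} {v' : ι → U'} (h : QEq v v') {s : Fin 3}
    {x : U} {x' : U'} (hx : Gen s v x) (hx' : Gen s v' x') : QEq (ext v x) (ext v' x') := by
  refine qeq_ext_V hU hU' h hx.1 hx'.1 hx.2.1 hx'.2.1 (fun i => ?_) (fun i j => ?_)
  · rw [hx.2.2.1, hx'.2.2.1, h.vv_iff, h.SS_iff]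
  · exact iff_of_false (hx.2.2.2 i j) (hx'.2.2.2 i j)

theorem Gen.comp {ι κ : Type*} {U : Type u} [Lg.Structure U] {v : ι → U} {s : Fin 3} {x : U}
    (hx : Gen s v x) (g : κ → ι) : Gen s (v ∘ g) x :=
  ⟨hx.1, fun i => hx.2.1 (g i), fun i => hx.2.2.1 (g i), fun i j => hx.2.2.2 (g i) (g j)⟩

theorem gen_exists {ι : Type*} [Finite ι] {U : Type u} [Lg.Structure U] (hU : Rich U)
    (s : Fin 3) (v : ι → U) : ∃ x, Gen s v x := by
  have allow : AllowV (fun k : Set.range v => k.1) (fun k => ¬ vv k.1 ∧ SS s k.1)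
      (fun _ _ => False) :=
    ⟨fun i j h => Subtype.ext h, fun i hi => hi.1, fun i j h => h.elim⟩
  obtain ⟨x, hx, hx2⟩ := hU.extV' allow
  refine ⟨x, hx, fun i => (hx2 ⟨v i, i, rfl⟩).1, fun i => (hx2 ⟨v i, i, rfl⟩).2.1, fun i j h => ?_⟩
  exact ((hx2 ⟨v i, i, rfl⟩).2.2 ⟨v j, j, rfl⟩).1 h

theorem ud_gen {ι : Type} [Finite ι] (s : Fin 3) :
    UD (fun (U : Type w) _ (v : Option ι → U) => Gen s (fun i => v (some i)) (v none)) := by
  unfold Gen SS
  exact (UD.vv none).and ((UD.all fun i => (UD.eq _ _).not).and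
    ((UD.all fun i => (UD.e _ _).iff ((UD.vv _).not.and
      (((UD.const _).imp (UD.a0 _)).and ((UD.const _).imp (UD.a1 _))))).and
    (UD.all fun i => UD.all fun j => (UD.r _ _ _).not)))

/-- Tuples with the same type have the same quantifier free type. -/
theorem qeq_of_type {α : Type} {U U' : Type w} [Lg.Structure U] [Lg.Structure U'] {v : α → U}
    {v' : α → U'} (h : ∀ χ : Lg.Formula α, χ.Realize v ↔ χ.Realize v') : QEq v v' := by
  have key : ∀ {P : ∀ (U : Type w) [Lg.Structure U], (α → U) → Prop}, UD P →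
      (P U v ↔ P U' v') := by
    rintro P ⟨ψ, hψ⟩
    rw [← hψ, ← hψ]
    exact h ψ
  exact ⟨fun i j => key (UD.eq i j), fun i => key (UD.a0 i), fun i => key (UD.a1 i),
    fun i j => key (UD.e i j), fun i j k => key (UD.r i j k)⟩

/-- A supporting tuple for a formula with parameters. -/
theorem exists_support {α : Type} {U : Type w} [Lg.Structure U]
    (φ : Lg.Formula (α ⊕ U)) :
    ∃ (m : ℕ) (c : Fin m → U) (φ' : Lg.Formula (α ⊕ Fin m)), ∀ x : α → U,
      φ.Realize (Sum.elim x id) ↔ φ'.Realize (Sum.elim x c) := by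
  obtain ⟨m, c, φ', h⟩ := Helper8Coheir.exists_finite_support.{0, 0, w, w} φ
  exact ⟨m, c, φ', fun x => h U x id⟩

end Helper8Orth
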